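import Pool.Agent.Lib.MP_4b815d_gt.Swerve
import Pool.Agent.Lib.MP_4b815d_gt.Lune
import Pool.Agent.Lib.MP_4b815d_gt.Flat

set_option autoImplicit false

open Set
open Pool.Agent.Lib.MP_4b815d_gt

namespace Pool.Agent.Results.MP_4b815d_gt.ConeCounterexample

/-- For every `lam > 0` there are a two-dimensional Alexandrov space `M` of curvature at least `0`
and a `lam`-convex closed topological disk `D` in `M`, with boundary of length `L` and flat near its
boundary, whose circumscribed radius `R` is greater than the circumscribed radius `r` of the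
`lam`-convex lunes of perimeter `L` of the Euclidean plane. (`M` is the cone over a circle of length
`π`, `D` is the disk of radius `1 / lam` about the apex, `L = π / lam`, `R = 1 / lam` and
`r = sin (π / 4) / lam`.) -/
theorem result (lam : ℝ) (hlam : 0 < lam) :
    ∃ (M : Type) (_ : MetricSpace M) (D : Set M) (c : ℝ → M) (L R r : ℝ),
      CBBZero M ∧ dimH (univ : Set M) = 2 ∧
      ClosedTopDisk D ∧ BoundaryParam D L c ∧ LambdaConvex lam D L c ∧
      (∀ q ∈ frontier D, ∃ ε > 0, Nonempty (Metric.ball q ε ≃ᵢ Metric.ball (0 : ℂ) ε)) ∧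
      IsCircumradius D R ∧
      (∃ S, IsLune lam L S) ∧ (∀ S, IsLune lam L S → IsCircumradius S r) ∧
      r < R := by
  refine ⟨Cone, inferInstance, disk lam, bd lam, Real.pi / lam, lam⁻¹, Real.sin (Real.pi / 4) / lam,
    cbbZero_cone, dimH_cone, closedTopDisk_disk hlam, boundaryParam_disk hlam, lambdaConvex_disk hlam,
    flat_near_frontier hlam, isCircumradius_disk hlam, ⟨lune lam, isLune_lune hlam⟩,
    fun S hS => isCircumradius_lune hlam hS, ?_⟩
  rw [div_lt_iff₀ hlam, inv_mul_cancel₀ hlam.ne', Real.sin_pi_div_four, div_lt_one two_pos, Real.sqrt_lt' two_pos]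
  norm_num

end Pool.Agent.Results.MP_4b815d_gt.ConeCounterexample
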